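import Mathlib

/-!
# The maximal height of the divisors of `x ^ (p q ^ b) - 1` for `b ≥ 3`

For odd primes `p < q` and `b ≥ 3` the divisor `Φ_p Φ_q Φ_{p q ^ 2} Φ_{q ^ 3}` of `x ^ (p q ^ b) - 1`
equals `Φ_p(x) Φ_q(x) W(x ^ q)` with `W = Φ_{p q} Φ_{q ^ 2}`. Its coefficient at `q t + (q - 1)` is `p`
times the coefficient of `W` at `t`. If `1 ≤ r < p` and `q r ≡ 1 (mod p)`, then `W` has the coefficient
`r` at `(r - 1) q` and the coefficient `-(p - r)` at `(p - r - 1) q + 1`. Hence
`B(p q ^ b) ≥ p max(r, p - r) ≥ p (p + 1) / 2 > p`.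
-/

set_option autoImplicit false

open Polynomial Finset

namespace Pool.Agent.L0h75.Known.HeightAboveP

/-- The height `H(f)`: the largest absolute value of a coefficient of `f`. -/
def height (f : ℤ[X]) : ℕ := f.support.sup fun k => (f.coeff k).natAbs

/-- `B(n)`: the maximum of the heights of the divisors of `x ^ n - 1` in `ℤ[x]`. -/
noncomputable def B (n : ℕ) : ℕ := sSup {h | ∃ f : ℤ[X], f ∣ X ^ n - 1 ∧ height f = h}

lemma le_height (f : ℤ[X]) (k : ℕ) : (f.coeff k).natAbs ≤ height f := by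
  by_cases h : k ∈ f.support
  · exact Finset.le_sup (f := fun k => (f.coeff k).natAbs) h
  · rw [notMem_support_iff.1 h]
    exact Nat.zero_le _

lemma finite_heights (n : ℕ) (hn : 0 < n) :
    {h | ∃ f : ℤ[X], f ∣ X ^ n - 1 ∧ height f = h}.Finite := by
  have h0 : (X ^ n - 1 : ℤ[X]) ≠ 0 := (monic_X_pow_sub_C 1 hn.ne').ne_zero
  have hU : Finite (ℤ[X])ˣ := by
    refine Finite.of_injective (fun u : (ℤ[X])ˣ => (⟨(u : ℤ[X]).coeff 0, (u⁻¹ : ℤ[X]ˣ).val.coeff 0, ?_, ?_⟩ : ℤˣ)) ?_
    · have : ((u : ℤ[X]) * (u⁻¹ : ℤ[X]ˣ).val).coeff 0 = 1 := by simp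
      rwa [mul_coeff_zero] at this
    · have : ((u⁻¹ : ℤ[X]ˣ).val * (u : ℤ[X])).coeff 0 = 1 := by simp
      rwa [mul_coeff_zero] at this
    · intro u v huv
      have h1 : (u : ℤ[X]).coeff 0 = (v : ℤ[X]).coeff 0 := congrArg Units.val huv
      have hu := Polynomial.eq_C_of_natDegree_eq_zero (natDegree_eq_zero_of_isUnit u.isUnit)
      have hv := Polynomial.eq_C_of_natDegree_eq_zero (natDegree_eq_zero_of_isUnit v.isUnit)
      ext1
      rw [hu, hv, h1]
  have : Fintype (ℤ[X])ˣ := Fintype.ofFinite _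
  have hF : Fintype {f : ℤ[X] // f ∣ X ^ n - 1} :=
    UniqueFactorizationMonoid.fintypeSubtypeDvd (X ^ n - 1) h0
  have hfin : {f : ℤ[X] | f ∣ X ^ n - 1}.Finite :=
    Set.finite_coe_iff.1 (Finite.of_fintype {f : ℤ[X] // f ∣ X ^ n - 1})
  exact (hfin.image height).subset (by rintro h ⟨f, hf, rfl⟩; exact ⟨f, hf, rfl⟩)

/-- `B(n)` is the largest of the heights of the divisors of `x ^ n - 1`. -/
lemma isGreatest_B (n : ℕ) (hn : 0 < n) :
    IsGreatest {h | ∃ f : ℤ[X], f ∣ X ^ n - 1 ∧ height f = h} (B n) :=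
  ⟨Nat.sSup_mem ⟨_, 1, one_dvd _, rfl⟩ (finite_heights n hn).bddAbove,
    fun _ h => le_csSup (finite_heights n hn).bddAbove h⟩

section

variable {p q : ℕ}

lemma coeff_cyc (hq : q.Prime) (m : ℕ) : (cyclotomic q ℤ).coeff m = if m < q then 1 else 0 := by
  have := Fact.mk hq
  rw [cyclotomic_prime, finsetSum_coeff]
  simp only [coeff_X_pow]
  rw [Finset.sum_ite_eq]
  simp

/-- the coefficients of `Φ_p Φ_q` -/
lemma coeff_A (hp : p.Prime) (hq : q.Prime) (hpq : p < q) :
    (cyclotomic p ℤ * cyclotomic q ℤ).coeff (q - 1) = p := by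
  rw [coeff_mul, Finset.Nat.sum_antidiagonal_eq_sum_range_succ_mk]
  have hq0 := hq.pos
  have : (q - 1).succ = q := by omega
  rw [this]
  have : ∀ k ∈ range q, (cyclotomic p ℤ).coeff k * (cyclotomic q ℤ).coeff (q - 1 - k) =
      if k < p then 1 else 0 := by
    intro k hk
    rw [coeff_cyc hp, coeff_cyc hq, if_pos (show q - 1 - k < q by omega), mul_one]
  rw [Finset.sum_congr rfl this, ← Finset.sum_filter]
  have : (range q).filter (fun k => k < p) = range p := by
    ext k
    simp only [mem_filter, mem_range]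
    omega
  rw [this]
  simp

lemma coeff_A_zero (hp : p.Prime) (hq : q.Prime) (hpq : p < q) (n : ℕ) (hn : 2 * q - 1 ≤ n) :
    (cyclotomic p ℤ * cyclotomic q ℤ).coeff n = 0 := by
  apply coeff_eq_zero_of_natDegree_lt
  refine lt_of_le_of_lt natDegree_mul_le ?_
  rw [natDegree_cyclotomic, natDegree_cyclotomic, Nat.totient_prime hp, Nat.totient_prime hq]
  have := hp.two_le
  omega

lemma coeff_top (hp : p.Prime) (hq : q.Prime) (hpq : p < q) (W : ℤ[X]) (t : ℕ) :
    (cyclotomic p ℤ * cyclotomic q ℤ * expand ℤ q W).coeff (q * t + (q - 1)) = p * W.coeff t := by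
  have hq0 := hq.pos
  rw [coeff_mul, Finset.sum_eq_single (q - 1, q * t)]
  · dsimp only
    rw [coeff_A hp hq hpq, coeff_expand hq0, if_pos (dvd_mul_right q t), Nat.mul_div_cancel_left _ hq0]
  · rintro ⟨a, b⟩ hab hne
    rw [HasAntidiagonal.mem_antidiagonal] at hab
    dsimp only at hab ⊢
    rw [coeff_expand hq0]
    split_ifs with hb
    · obtain ⟨m, rfl⟩ := hb
      rcases lt_trichotomy m t with h | h | h
      · rw [coeff_A_zero hp hq hpq, zero_mul]
        obtain ⟨d, rfl⟩ := Nat.exists_eq_add_of_lt h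
        have : q * (m + d + 1) = q * m + q * d + q := by ring
        rw [this] at hab
        have : 0 ≤ q * d := Nat.zero_le _
        omega
      · subst h
        exact absurd (by ext <;> simp <;> omega) hne
      · exfalso
        obtain ⟨d, rfl⟩ := Nat.exists_eq_add_of_lt h
        have : q * (t + d + 1) = q * t + q * d + q := by ring
        rw [this] at hab
        have : 0 ≤ q * d := Nat.zero_le _
        omega
    · rw [mul_zero]
  · intro h
    exfalso
    apply h
    rw [HasAntidiagonal.mem_antidiagonal]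
    dsimp only
    omega

/-- `W = Φ_{p q} Φ_{q ^ 2}` -/
noncomputable def W (p q : ℕ) : ℤ[X] := cyclotomic (q * p) ℤ * cyclotomic (q * q) ℤ

/-- `(Φ_q)(x ^ p) (Φ_q)(x ^ q)` -/
noncomputable def D (p q : ℕ) : ℤ[X] := expand ℤ p (cyclotomic q ℤ) * expand ℤ q (cyclotomic q ℤ)

lemma W_mul (hp : p.Prime) (hq : q.Prime) (hpq : p < q) :
    W p q * (X ^ q - 1) = D p q * (X - 1) := by
  have hnd : ¬ p ∣ q := fun h => by
    have := (Nat.prime_dvd_prime_iff_eq hp hq).1 h
    omega
  have := Fact.mk hq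
  rw [← cyclotomic_prime_mul_X_sub_one ℤ q, W, D, cyclotomic_expand_eq_cyclotomic_mul hp hnd,
    cyclotomic_expand_eq_cyclotomic hq (dvd_refl q)]
  ring

lemma W_rec (hp : p.Prime) (hq : q.Prime) (hpq : p < q) (n : ℕ) :
    (W p q).coeff (n + 1) = (if q ≤ n + 1 then (W p q).coeff (n + 1 - q) else 0) +
      (D p q).coeff (n + 1) - (D p q).coeff n := by
  have h := congrArg (fun f => coeff f (n + 1)) (W_mul hp hq hpq)
  simp only [mul_sub, mul_one, coeff_sub, coeff_mul_X, coeff_mul_X_pow'] at h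
  linarith

lemma W_zero (hp : p.Prime) (hq : q.Prime) (hpq : p < q) :
    (W p q).coeff 0 = (D p q).coeff 0 := by
  have h := congrArg (fun f => coeff f 0) (W_mul hp hq hpq)
  simp only [mul_sub, mul_one, coeff_sub, mul_coeff_zero, coeff_X_zero] at h
  rw [coeff_X_pow, if_neg (by have := hq.pos; omega)] at h
  linarith

lemma D_zero (hp : p.Prime) (hq : q.Prime) (n : ℕ)
    (h : ∀ i m : ℕ, p * i + q * m ≠ n) : (D p q).coeff n = 0 := by
  rw [D, coeff_mul]
  refine Finset.sum_eq_zero ?_
  rintro ⟨a, b⟩ hab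
  rw [HasAntidiagonal.mem_antidiagonal] at hab
  dsimp only at hab ⊢
  rw [coeff_expand hp.pos, coeff_expand hq.pos]
  split_ifs with h1 h2
  · obtain ⟨i, rfl⟩ := h1
    obtain ⟨m, rfl⟩ := h2
    exact absurd hab (h i m)
  all_goals simp

lemma D_mul (hp : p.Prime) (hq : q.Prime) (hpq : p < q) (J : ℕ) (hJ : J < p) :
    (D p q).coeff (J * q) = 1 := by
  have hc : Nat.Coprime q p := (Nat.coprime_primes hq hp).2 (by omega)
  rw [D, coeff_mul, Finset.sum_eq_single (0, J * q)]
  · dsimp only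
    rw [coeff_expand hp.pos, coeff_expand hq.pos, if_pos (dvd_zero p), if_pos (dvd_mul_left q J),
      Nat.zero_div, Nat.mul_div_cancel _ hq.pos, coeff_cyc hq, coeff_cyc hq, if_pos hq.pos,
      if_pos (by omega)]
    norm_num
  · rintro ⟨a, b⟩ hab hne
    rw [HasAntidiagonal.mem_antidiagonal] at hab
    dsimp only at hab ⊢
    rw [coeff_expand hp.pos, coeff_expand hq.pos]
    split_ifs with h1 h2
    · exfalso
      have h3 : q ∣ a := by
        have : q ∣ a + b := hab ▸ dvd_mul_left q J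
        exact (Nat.dvd_add_left h2).1 this
      have h4 : q * p ∣ a := hc.mul_dvd_of_dvd_of_dvd h3 h1
      have h5 : a < q * p := by
        have : J * q < p * q := Nat.mul_lt_mul_of_pos_right hJ hq.pos
        have : p * q = q * p := mul_comm _ _
        omega
      have h6 : a = 0 := Nat.eq_zero_of_dvd_of_lt h4 h5
      subst h6
      apply hne
      ext <;> simp <;> omega
    all_goals simp
  · intro h
    exfalso
    apply h
    rw [HasAntidiagonal.mem_antidiagonal]
    dsimp only
    omega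

lemma W_pos (hp : p.Prime) (hq : q.Prime) (hpq : p < q) (r : ℕ) (hr : r < p)
    (hqr : q * r ≡ 1 [MOD p]) (J : ℕ) (hJ : J < r) : (W p q).coeff (J * q) = J + 1 := by
  have hc : Nat.Coprime p q := (Nat.coprime_primes hp hq).2 (by omega)
  have hq0 := hq.pos
  induction J with
  | zero =>
    have := D_mul hp hq hpq 0 hp.pos
    rw [zero_mul] at this ⊢
    rw [W_zero hp hq hpq, this]
    simp
  | succ J ih =>
    have e : (J + 1) * q = J * q + (q - 1) + 1 := by
      rw [add_mul, one_mul]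
      omega
    have h1 := W_rec hp hq hpq (J * q + (q - 1))
    rw [if_pos (by omega), ← e, show (J + 1) * q - q = J * q by rw [add_mul, one_mul]; omega,
      ih (by omega), D_mul hp hq hpq (J + 1) (by omega), D_zero hp hq] at h1
    · rw [h1]
      push_cast
      ring
    · intro i m him
      -- `p i = (J + 1 - m) q - 1`
      have hm : m ≤ J := by
        by_contra hcon
        push Not at hcon
        have : q * (J + 1) ≤ q * m := Nat.mul_le_mul_left q hcon
        have h2 : q * (J + 1) = J * q + q := by ring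
        omega
      obtain ⟨k, rfl⟩ := Nat.exists_eq_add_of_le hm
      -- `J = m + k`
      have h2 : p * i + 1 = q * (k + 1) := by
        have : (m + k) * q = q * m + q * k := by ring
        have h3 : q * (k + 1) = q * k + q := by ring
        rw [this] at him
        omega
      have h3 : q * (k + 1) ≡ 1 [MOD p] := by
        rw [← h2]
        simp [Nat.ModEq, Nat.add_mod]
      have h4 : q * (k + 1) ≡ q * r [MOD p] := h3.trans hqr.symm
      have h5 : k + 1 ≡ r [MOD p] := Nat.ModEq.cancel_left_of_coprime (by rwa [Nat.coprime_iff_gcd_eq_one] at hc) h4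
      have h6 := Nat.ModEq.eq_of_lt_of_lt h5 (by omega) hr
      omega

lemma W_neg (hp : p.Prime) (hq : q.Prime) (hpq : p < q) (r : ℕ)
    (hqr : q * r ≡ 1 [MOD p]) (J : ℕ) (hJ : J + r < p) :
    (W p q).coeff (J * q + 1) = -(J + 1) := by
  have hc : Nat.Coprime p q := (Nat.coprime_primes hp hq).2 (by omega)
  have hq2 := hq.two_le
  have hp2 := hp.two_le
  have hr0 : 0 < r := by
    rcases Nat.eq_zero_or_pos r with rfl | h
    · exfalso
      rw [mul_zero] at hqr
      have := (Nat.modEq_zero_iff_dvd.1 hqr.symm)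
      have := Nat.le_of_dvd one_pos this
      omega
    · exact h
  have key : ∀ J, J + r < p → (D p q).coeff (J * q + 1) = 0 := by
    intro J hJ
    apply D_zero hp hq
    intro i m him
    have hm : m ≤ J := by
      by_contra hcon
      push Not at hcon
      have : q * (J + 1) ≤ q * m := Nat.mul_le_mul_left q hcon
      have h2 : q * (J + 1) = J * q + q := by ring
      omega
    obtain ⟨k, rfl⟩ := Nat.exists_eq_add_of_le hm
    have h2 : p * i = q * k + 1 := by
      have : (m + k) * q = q * m + q * k := by ring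
      rw [this] at him
      omega
    have h3 : q * k + 1 ≡ 0 [MOD p] := by
      rw [← h2]
      simp [Nat.ModEq]
    have h4 : q * (k + r) ≡ 0 [MOD p] := by
      rw [mul_add]
      exact (Nat.ModEq.add_left (q * k) hqr).trans h3
    have h5 : p ∣ k + r := hc.dvd_of_dvd_mul_left (Nat.modEq_zero_iff_dvd.1 h4)
    have := Nat.le_of_dvd (by omega) h5
    omega
  induction J with
  | zero =>
    have h1 := W_rec hp hq hpq 0
    rw [if_neg (by omega)] at h1
    have h2 := key 0 (by omega)
    have h3 := D_mul hp hq hpq 0 hp.pos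
    rw [zero_mul] at h2 h3 ⊢
    rw [h1, h2, h3]
    norm_num
  | succ J ih =>
    have h1 := W_rec hp hq hpq ((J + 1) * q)
    have e : (J + 1) * q = J * q + q := by ring
    rw [if_pos (by omega), show (J + 1) * q + 1 - q = J * q + 1 by omega,
      ih (by omega), D_mul hp hq hpq (J + 1) (by omega), key (J + 1) hJ] at h1
    rw [h1]
    push_cast
    ring

lemma dvd_main (hp : p.Prime) (hq : q.Prime) (hpq : p < q) (b : ℕ) (hb : 2 < b) :
    cyclotomic p ℤ * cyclotomic q ℤ * expand ℤ q (W p q) ∣ X ^ (p * q ^ b) - 1 := by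
  have hp2 := hp.two_le
  have hq2 := hq.two_le
  rw [W, map_mul, cyclotomic_expand_eq_cyclotomic hq (dvd_mul_right q p),
    cyclotomic_expand_eq_cyclotomic hq (dvd_mul_right q q)]
  have hpos : 0 < p * q ^ b := Nat.mul_pos hp.pos (pow_pos hq.pos b)
  rw [← prod_cyclotomic_eq_X_pow_sub_one hpos]
  have hlt : q < q * q := by nlinarith
  have hne1 : p ≠ q := by omega
  have hne2 : p ≠ q * p * q := by nlinarith [Nat.mul_pos hp.pos hq.pos]
  have hne3 : p ≠ q * q * q := by nlinarith
  have hne4 : q ≠ q * p * q := by nlinarith [Nat.mul_pos hp.pos hq.pos]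
  have hne5 : q ≠ q * q * q := by nlinarith
  have hne6 : q * p * q ≠ q * q * q := by
    intro h
    have h1 := Nat.eq_of_mul_eq_mul_right hq.pos h
    have h2 := Nat.eq_of_mul_eq_mul_left hq.pos h1
    omega
  have hsub : ({p, q, q * p * q, q * q * q} : Finset ℕ) ⊆ (p * q ^ b).divisors := by
    obtain ⟨c, rfl⟩ := Nat.exists_eq_add_of_lt hb
    intro d hd
    rw [Nat.mem_divisors]
    refine ⟨?_, hpos.ne'⟩
    simp only [mem_insert, mem_singleton] at hd
    rcases hd with rfl | rfl | rfl | rfl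
    · exact dvd_mul_right _ _
    · exact ⟨p * d ^ (2 + c), by ring⟩
    · exact ⟨q ^ (1 + c), by ring⟩
    · exact ⟨p * q ^ c, by ring⟩
  refine dvd_trans (dvd_of_eq ?_) (Finset.prod_dvd_prod_of_subset _ _ (fun d => cyclotomic d ℤ) hsub)
  rw [prod_insert (by simp [hne1, hne2, hne3]), prod_insert (by simp [hne4, hne5]),
    prod_insert (by simp [hne6]), prod_singleton]
  ring

end

/-- For odd primes `p < q` and `b ≥ 3` the maximal height `B(p q ^ b)` is at least `p max(r, p - r)`, where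
`1 ≤ r < p` and `q r ≡ 1 (mod p)`, hence at least `p (p + 1) / 2`, hence larger than `p`. -/
theorem result (p q b : ℕ) (hp : p.Prime) (hq : q.Prime) (hp' : Odd p) (hpq : p < q) (hb : 2 < b) :
    IsGreatest {h | ∃ f : ℤ[X], f ∣ X ^ (p * q ^ b) - 1 ∧ height f = h} (B (p * q ^ b)) ∧
    (∃ r : ℕ, 1 ≤ r ∧ r < p ∧ q * r ≡ 1 [MOD p] ∧ p * max r (p - r) ≤ B (p * q ^ b)) ∧
    p * ((p + 1) / 2) ≤ B (p * q ^ b) ∧ p < B (p * q ^ b) := by
  have hp2 := hp.two_le
  have hpos : 0 < p * q ^ b := Nat.mul_pos hp.pos (pow_pos hq.pos b)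
  have hG := isGreatest_B (p * q ^ b) hpos
  have hc : Nat.Coprime q p := (Nat.coprime_primes hq hp).2 (by omega)
  obtain ⟨r, hr0, hrp, hr⟩ : ∃ r : ℕ, 1 ≤ r ∧ r < p ∧ q * r ≡ 1 [MOD p] := by
    obtain ⟨m, -, hm⟩ := Nat.exists_mul_mod_eq_one_of_coprime hc (by omega)
    refine ⟨m % p, ?_, Nat.mod_lt _ hp.pos, ?_⟩
    · rcases Nat.eq_zero_or_pos (m % p) with h | h
      · exfalso
        rw [Nat.mul_mod, h] at hm
        simp at hm
      · exact h
    · have h1 : q * (m % p) ≡ q * m [MOD p] := (Nat.mod_modEq m p).mul_left q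
      refine h1.trans ?_
      rw [Nat.ModEq, hm, Nat.mod_eq_of_lt (by omega)]
  have hdvd := dvd_main hp hq hpq b hb
  set f := cyclotomic p ℤ * cyclotomic q ℤ * expand ℤ q (W p q) with hf
  have hfB : height f ≤ B (p * q ^ b) := hG.2 ⟨f, hdvd, rfl⟩
  have h1 : p * r ≤ B (p * q ^ b) := by
    refine le_trans ?_ hfB
    refine le_trans (le_of_eq ?_) (le_height f (q * ((r - 1) * q) + (q - 1)))
    rw [hf, coeff_top hp hq hpq, W_pos hp hq hpq r hrp hr (r - 1) (by omega)]
    have : ((r - 1 : ℕ) : ℤ) + 1 = r := by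
      push_cast [hr0]
      ring
    rw [this, ← Nat.cast_mul, Int.natAbs_natCast]
  have h2 : p * (p - r) ≤ B (p * q ^ b) := by
    refine le_trans ?_ hfB
    refine le_trans (le_of_eq ?_) (le_height f (q * ((p - r - 1) * q + 1) + (q - 1)))
    rw [hf, coeff_top hp hq hpq, W_neg hp hq hpq r hr (p - r - 1) (by omega)]
    have : ((p - r - 1 : ℕ) : ℤ) + 1 = ((p - r : ℕ) : ℤ) := by
      have : p - r - 1 + 1 = p - r := by omega
      exact_mod_cast this
    rw [this, mul_neg, ← Nat.cast_mul, Int.natAbs_neg, Int.natAbs_natCast]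
  have h3 : p * ((p + 1) / 2) ≤ B (p * q ^ b) := by
    rcases le_total r (p - r) with h | h
    · exact le_trans (Nat.mul_le_mul_left p (by omega)) h2
    · exact le_trans (Nat.mul_le_mul_left p (by omega)) h1
  refine ⟨hG, ⟨r, hr0, hrp, hr, ?_⟩, h3, ?_⟩
  · rcases le_total r (p - r) with h | h
    · rw [max_eq_right h]
      exact h2
    · rw [max_eq_left h]
      exact h1
  · obtain ⟨k, hk⟩ := hp'
    have : 1 < (p + 1) / 2 := by omega
    nlinarith

end Pool.Agent.L0h75.Known.HeightAboveP
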